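import Pool.Agent.ALT.Glue.Defs
import Pool.Agent.ALT.Tu.StP
import Pool.Agent.ALT.S0.Defs
import Pool.Agent.ALT.Mo.Lg
import Pool.Agent.ALZ.St

/-! # ALT, glue: all fields of `LeafLe` for a pair of dual graphs -/

set_option autoImplicit false

namespace Pool.ALT

/-- [Z3] long leaves: either a wide cross path (many trees), or the strip argument. -/
def St_Z3 : Prop := ∀ {V W E : Type} [Fintype V] [Fintype W] [Fintype E] [DecidableEq E]
  (g : Gr V E) (h : Gr W E), Lg g h → 16 * g.p ⊥ Finset.univ ≤ g.q ⊥ Finset.univ →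
  7 * Fintype.card E * g.q ⊥ Finset.univ ≤ 16 * g.p ⊥ Finset.univ ^ 2 ∨
  (g.q ⊥ Finset.univ : ℚ) ^ 2 / 8 - (g.p ⊥ Finset.univ : ℚ) * g.q ⊥ Finset.univ / 2 ≤
    ((jetOf (g.be ⊥ Finset.univ) (g.al ⊥ Finset.univ)).Om + 1) / 2

/-- [SZ] the size block: `n = |E|`, `p < q` numbers of trees. -/
def St_SZ : Prop := ∀ {V W E : Type} [Fintype V] [Fintype W] [Fintype E] [DecidableEq E]
  (g : Gr V E) (h : Gr W E), Lg g h → g.p ⊥ Finset.univ < g.q ⊥ Finset.univ →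
  6 ≤ Fintype.card E ∧ 3 * Fintype.card E ≤ g.p ⊥ Finset.univ + 7 ∧
    4 * g.q ⊥ Finset.univ ≤ Fintype.card E * g.p ⊥ Finset.univ

section

variable {V W E : Type} [Fintype V] [Fintype W] [Fintype E] [DecidableEq E]

theorem Lg.pm {g : Gr V E} {h : Gr W E} (hl : Lg g h) : g.Pm where
  two := hl.two
  c1 := fun S h1 h2 => hl.pr S (Finset.nonempty_iff_ne_empty.2 h1) h2
  c2 := fun S h1 h2 => hl.pr' S (Finset.nonempty_iff_ne_empty.2 h1) h2

theorem Lg.symm {g : Gr V E} {h : Gr W E} (hDS : St_DS) (hl : Lg g h) : Lg h g where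
  du := (hDS g h hl.du).1
  two := hl.two
  pr := fun S h1 h2 => (hl.pm.dual hDS hl.du).c1 S (Finset.nonempty_iff_ne_empty.1 h1) h2
  pr' := fun S h1 h2 => (hl.pm.dual hDS hl.du).c2 S (Finset.nonempty_iff_ne_empty.1 h1) h2

omit [DecidableEq E] in
theorem glue_K_univ {g : Gr V E} (hc : nc (g.sp ⊥ Finset.univ) = 1) : g.K ⊥ Finset.univ = 1 := by
  have : Nonempty V := ⟨g.a⟩
  have h1 : g.K ⊥ Finset.univ ≤ nc (g.sp ⊥ Finset.univ) := nc_anti le_sup_left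
  have h2 : 0 < g.K ⊥ Finset.univ := nc_pos _
  omega

/-- the leaf inequalities -/
theorem thm_GLL (hFN : St_FN) (hPQ : St_PQ) (hZ : ALZ.St_ZFN) (hJL : St_JL) (hS0 : St_S0)
    (hSZ : St_SZ) (hZ3 : St_Z3) (g : Gr V E) (h : Gr W E) (hl : Lg g h)
    (hlt : g.p ⊥ Finset.univ < g.q ⊥ Finset.univ)
    (hco : Nat.Coprime (g.p ⊥ Finset.univ) (g.q ⊥ Finset.univ)) :
    Pool.Agent.ALT.LeafLe (Fintype.card E) (g.p ⊥ Finset.univ) (g.q ⊥ Finset.univ)
      (jetOf (g.be ⊥ Finset.univ) (g.al ⊥ Finset.univ)) := by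
  classical
  have hp := hl.pm
  have hK := glue_K_univ hl.du.con
  have hd : ∀ A : Finset E, A.card < 2 → ¬ g.sp ⊥ A g.a g.b := by
    intro A hA
    rcases Finset.eq_empty_or_nonempty A with rfl | ⟨e, he⟩
    · rw [g.sp_empty]
      exact hl.du.ab
    · have h1 : A = {e} := by
        apply Finset.eq_singleton_iff_unique_mem.2 ⟨he, ?_⟩
        have h2 : A.card ≤ 1 := by omega
        intro x hx
        exact Finset.card_le_one.1 h2 x hx e he
      rw [h1]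
      exact hp.dist e
  have hc : ∀ A : Finset E, A.card < 2 → g.sp ⊥ (Finset.univ \ A) g.a g.b := by
    intro A hA
    rcases Finset.eq_empty_or_nonempty A with rfl | ⟨e, he⟩
    · obtain ⟨e⟩ : Nonempty E := Fintype.card_pos_iff.1 (by have := hl.two; omega)
      exact g.sp_mono le_rfl (Finset.sdiff_subset_sdiff subset_rfl (Finset.empty_subset _))
        (hp.cut e)
    · have h1 : A = {e} := by
        apply Finset.eq_singleton_iff_unique_mem.2 ⟨he, ?_⟩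
        have h2 : A.card ≤ 1 := by omega
        intro x hx
        exact Finset.card_le_one.1 h2 x hx e he
      rw [h1]
      exact hp.cut e
  obtain ⟨j1, j2, j3, j4, j5, j6, j7⟩ := hJL g hl.du.con hl.two hd hc
    (fun k => hS0 g ⊥ Finset.univ hK k) hco
  obtain ⟨s1, s2, s3⟩ := hSZ g h hl hlt
  obtain ⟨e1, e2⟩ := hPQ g Finset.univ hK hl.du.ab
  have hle : g.NF Finset.univ {g.a} ≤ g.NF Finset.univ {g.a, g.b} := by
    rw [← e1, ← e2]
    exact hlt.le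
  obtain ⟨N, N', ph, x, G, G', _, _, _, _, _, _, hgood, hform⟩ :=
    hFN g h hl.du hp.dist hp.cut hle
  obtain ⟨z1, z2⟩ := hZ V W E N N' ph x _ G G' hgood
  rw [← e1, ← e2] at z1 z2 hform
  have hp0 : (0 : ℝ) < g.p ⊥ Finset.univ := by
    have h1 : 0 < g.p ⊥ Finset.univ := by
      rcases Nat.eq_zero_or_pos (g.p ⊥ Finset.univ) with h0 | h0
      · rw [h0] at s2
        omega
      · exact h0
    exact_mod_cast h1
  have hq0 : (0 : ℝ) < g.q ⊥ Finset.univ := by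
    have h1 : (g.p ⊥ Finset.univ : ℝ) < g.q ⊥ Finset.univ := by exact_mod_cast hlt
    linarith
  refine ⟨s1, hlt, hco, j1, j2, j3, j4, j5, j6, j7, s2, s3, ?_, ?_, ?_⟩
  · intro h1
    have h1' : 2 * (g.q ⊥ Finset.univ : ℝ) ≤ 3 * g.p ⊥ Finset.univ := by exact_mod_cast h1
    have h2 := z1 (by rw [div_le_iff₀ hp0]; linarith)
    have h3 : (11 / 64 : ℝ) * (g.p ⊥ Finset.univ * g.q ⊥ Finset.univ) + 1 / 2 ≤
        ((((jetOf (g.be ⊥ Finset.univ) (g.al ⊥ Finset.univ)).Om + 1) / 2 : ℚ) : ℝ) := by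
      rw [hform]
      have h4 := mul_le_mul_of_nonneg_left h2 (mul_pos hp0 hq0).le
      linarith
    have h5 : (((11 / 64 * ((g.p ⊥ Finset.univ : ℚ) * g.q ⊥ Finset.univ) + 1 / 2 : ℚ)) : ℝ) ≤
        ((((jetOf (g.be ⊥ Finset.univ) (g.al ⊥ Finset.univ)).Om + 1) / 2 : ℚ) : ℝ) := by
      push_cast at h3 ⊢
      linarith
    exact_mod_cast h5
  · intro h1
    have h1' : 3 * (g.p ⊥ Finset.univ : ℝ) ≤ 2 * g.q ⊥ Finset.univ := by exact_mod_cast h1
    have h2 := z2 (by rw [le_div_iff₀ hp0]; linarith)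
    have h3 : (3 / 8 : ℝ) * (g.p ⊥ Finset.univ * g.q ⊥ Finset.univ) -
        5 / 16 * (g.p ⊥ Finset.univ : ℝ) ^ 2 + 1 / 2 ≤
        ((((jetOf (g.be ⊥ Finset.univ) (g.al ⊥ Finset.univ)).Om + 1) / 2 : ℚ) : ℝ) := by
      rw [hform]
      have h4 := mul_le_mul_of_nonneg_left h2 (mul_pos hp0 hq0).le
      have h6 : (g.p ⊥ Finset.univ : ℝ) * g.q ⊥ Finset.univ *
          (3 / 8 - 5 / (16 * ((g.q ⊥ Finset.univ : ℝ) / g.p ⊥ Finset.univ))) =
          (3 / 8 : ℝ) * (g.p ⊥ Finset.univ * g.q ⊥ Finset.univ) -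
            5 / 16 * (g.p ⊥ Finset.univ : ℝ) ^ 2 := by
        field_simp
      linarith
    have h5 : (((3 / 8 * ((g.p ⊥ Finset.univ : ℚ) * g.q ⊥ Finset.univ) -
        5 / 16 * (g.p ⊥ Finset.univ : ℚ) ^ 2 + 1 / 2 : ℚ)) : ℝ) ≤
        ((((jetOf (g.be ⊥ Finset.univ) (g.al ⊥ Finset.univ)).Om + 1) / 2 : ℚ) : ℝ) := by
      push_cast at h3 ⊢
      linarith
    exact_mod_cast h5
  · exact hZ3 g h hl

end

end Pool.ALT
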