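import Pool.Agent.ALT.Glue.Leaf
import Pool.Agent.ALT.S0.All
import Pool.Agent.ALT.Mo.All
import Pool.Agent.ALZ.ALL
import Pool.Agent.ALS.ALL

/-! # ALT, glue: a leaf word is a leaf in the sense of the induction block, without hypotheses -/

set_option autoImplicit false

namespace Pool.ALT

open Pool.Agent.ARB

/-- every leaf word has the invariants which are used in the induction -/
theorem all_Leaf (w : Word) (hw : IsLeaf w) : ∃ L : Pool.Agent.ALT.Lf, L.word = w :=
  thm_Leaf mo_LF mo_PB all_FN all_PQ all_DS all_DN all_DI ALZ.zfn all_JL all_S0 all_M0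
    (ALS.sz all_FN all_PQ) (ALS.z3a all_FN all_PQ) w hw

end Pool.ALT
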