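import Pool.Agent.ALT.Tu.StR
import Pool.Agent.ALT.L3.Defs

/-! # ALT: the interface between the word block, the graph blocks and the leaf inequalities

`Gr.Pm g` are the conditions on the graph of a leaf: they are the conditions
`loops (S) + loops (S^c) ≤ n` for the two closures, written with numbers of classes. -/

set_option autoImplicit false

namespace Pool.ALT

/-- conditions on the graph of a prime alternating tangle: no separation of the graph (`c1`) and of
the graph with `a`, `b` identified (`c2`) -/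
structure Gr.Pm {V E : Type} [Fintype V] [Fintype E] [DecidableEq E] (g : Gr V E) : Prop where
  two : 2 ≤ Fintype.card E
  c1 : ∀ S : Finset E, S ≠ ∅ → S ≠ Finset.univ →
    nc (g.sp ⊥ S) + nc (g.sp ⊥ (Finset.univ \ S)) ≤ Fintype.card V
  c2 : ∀ S : Finset E, S ≠ ∅ → S ≠ Finset.univ →
    nc (g.sp ⊥ S ⊔ g.ab) + nc (g.sp ⊥ (Finset.univ \ S) ⊔ g.ab) + 1 ≤ Fintype.card V

section lemmas

variable {V W E : Type} [Fintype V] [Fintype W] [Fintype E] [DecidableEq E]

theorem Gr.Pm.dist {g : Gr V E} (h : g.Pm) (e : E) : ¬ g.sp ⊥ {e} g.a g.b := by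
  intro h1
  have hne : ({e} : Finset E) ≠ Finset.univ := by
    intro h2
    have h3 := congrArg Finset.card h2
    rw [Finset.card_singleton, Finset.card_univ] at h3
    have := h.two
    omega
  have h2 := h.c2 {e} (Finset.singleton_ne_empty e) hne
  have h3 : g.sp ⊥ {e} ⊔ g.ab = g.sp ⊥ {e} := sup_pr_of _ h1
  have h4 := Gr.nc_le_add_card g ⊥ ({e} : Finset E)
  rw [h3] at h2
  rw [nc_bot, Nat.card_eq_fintype_card, Finset.card_singleton] at h4
  have : Nonempty V := ⟨g.a⟩
  have h5 := nc_pos (g.sp ⊥ (Finset.univ \ {e}) ⊔ g.ab)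
  omega

theorem Gr.Pm.cut {g : Gr V E} (h : g.Pm) (e : E) :
    g.sp ⊥ (Finset.univ \ {e}) g.a g.b := by
  by_contra h1
  have hne : ({e} : Finset E) ≠ Finset.univ := by
    intro h2
    have h3 := congrArg Finset.card h2
    rw [Finset.card_singleton, Finset.card_univ] at h3
    have := h.two
    omega
  have h2 := h.c1 {e} (Finset.singleton_ne_empty e) hne
  have h4 := Gr.nc_le_add_card g ⊥ ({e} : Finset E)
  rw [nc_bot, Nat.card_eq_fintype_card, Finset.card_singleton] at h4
  have h5 : nc (g.sp ⊥ (Finset.univ \ {e}) ⊔ g.ab) + 1 = nc (g.sp ⊥ (Finset.univ \ {e})) :=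
    nc_sup_pr h1
  have : Nonempty V := ⟨g.a⟩
  have h6 := nc_pos (g.sp ⊥ (Finset.univ \ {e}) ⊔ g.ab)
  omega

theorem Gr.Pm.dual {g : Gr V E} {h : Gr W E} (hDS : St_DS) (hd : Du g h) (hp : g.Pm) :
    h.Pm := by
  obtain ⟨hd', hE⟩ := hDS g h hd
  have hcard : ∀ S : Finset E, (Finset.univ \ S).card + S.card = Fintype.card E := by
    intro S
    rw [Finset.card_sdiff_add_card_eq_card (Finset.subset_univ S), Finset.card_univ]
  have hcc : ∀ S : Finset E, Finset.univ \ (Finset.univ \ S) = S := fun S =>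
    sdiff_sdiff_eq_self (Finset.subset_univ S)
  constructor
  · exact hp.two
  · intro S h1 h2
    have h3 : Finset.univ \ S ≠ ∅ := by
      intro h4
      rw [Finset.sdiff_eq_empty_iff_subset] at h4
      exact h2 (Finset.eq_univ_iff_forall.2 fun x => h4 (Finset.mem_univ x))
    have h3' := hp.c2 S h1 h2
    have e1 := hd'.du S
    have e2 := hd'.du (Finset.univ \ S)
    rw [hcc] at e2
    have := hcard S
    omega
  · intro S h1 h2
    have h3' := hp.c1 S h1 h2
    have e1 := hd.du S
    have e2 := hd.du (Finset.univ \ S)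
    rw [hcc] at e2
    have := hcard S
    omega

end lemmas

end Pool.ALT
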