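import Pool.Agent.ALT.Mo.Defs

/-! # ALT: an example of a leaf (a check of the definitions) -/

set_option autoImplicit false

namespace Pool.ALT

open Pool.Agent.ARB

theorem state_congr : ∀ (w : Word) (a b : ℕ → Bool), (∀ k < nX w, a k = b k) →
    state a w = state b w
  | [], _, _, _ => rfl
  | ⟨.X p, i⟩ :: w, a, b, h => by
      have h0 : a 0 = b 0 := h 0 (Nat.succ_pos _)
      have h1 := state_congr w (fun k => a (k + 1)) (fun k => b (k + 1))
        (fun k hk => h (k + 1) (Nat.succ_lt_succ hk))
      show (if a 0 = p then state (fun k => a (k + 1)) w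
        else pN i :: pU i :: state (fun k => a (k + 1)) w) =
        (if b 0 = p then state (fun k => b (k + 1)) w
        else pN i :: pU i :: state (fun k => b (k + 1)) w)
      rw [h0, h1]
  | ⟨.U, i⟩ :: w, a, b, h => by
      have h1 := state_congr w a b h
      show pU i :: state a w = pU i :: state b w
      rw [h1]
  | ⟨.N, i⟩ :: w, a, b, h => by
      have h1 := state_congr w a b h
      show pN i :: state a w = pN i :: state b w
      rw [h1]

/-- a finite check is enough for the conditions on the states -/
theorem isLeaf_of (w : Word) (hok : Ok w 2 2) (h2 : 2 ≤ nX w)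
    (ha : ∃ e : Bool, ∀ (p : Bool) (i : ℕ), pX i p ∈ w → (p = e ↔ i % 2 = 0))
    (hN : ∀ m < 2 ^ nX w, m ≠ 0 → m ≠ 2 ^ nX w - 1 →
      loops (NW (state (fun k => m.testBit k) w)) +
        loops (NW (state (fun k => !m.testBit k) w)) ≤ nX w ∧
      loops (DW (state (fun k => m.testBit k) w)) +
        loops (DW (state (fun k => !m.testBit k) w)) ≤ nX w) : IsLeaf w := by
  have key : ∀ a : ℕ → Bool, (∃ k < nX w, a k = true) → (∃ k < nX w, a k = false) →
      loops (NW (state a w)) + loops (NW (state (fun k => !a k) w)) ≤ nX w ∧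
      loops (DW (state a w)) + loops (DW (state (fun k => !a k) w)) ≤ nX w := by
    intro a h3 h4
    obtain ⟨m, hm⟩ : ∃ m, m = Nat.ofBits (fun i : Fin (nX w) => a i) := ⟨_, rfl⟩
    have hb : ∀ k < nX w, m.testBit k = a k := by
      intro k hk
      rw [hm, Nat.testBit_ofBits_lt _ _ hk]
    have hlt : m < 2 ^ nX w := by
      rw [hm]
      exact Nat.ofBits_lt_two_pow _
    have e1 := state_congr w a (fun k => m.testBit k) fun k hk => (hb k hk).symm
    have e2 := state_congr w (fun k => !a k) (fun k => !m.testBit k) fun k hk => by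
      show (!a k) = !m.testBit k
      rw [hb k hk]
    rw [e1, e2]
    apply hN m hlt
    · intro h0
      obtain ⟨k, hk, hk'⟩ := h3
      rw [← hb k hk, h0, Nat.zero_testBit] at hk'
      exact Bool.false_ne_true hk'
    · intro h0
      obtain ⟨k, hk, hk'⟩ := h4
      rw [← hb k hk, h0, Nat.testBit_two_pow_sub_one] at hk'
      simp only [decide_eq_false_iff_not, not_lt] at hk'
      omega
  exact ⟨hok, h2, ha, fun a h3 h4 => (key a h3 h4).1, fun a h3 h4 => (key a h3 h4).2⟩

/-- a leaf with six crossings; the determinants of its closures are 11 and 13 -/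
def leaf6 : Word := [pU 2, pX 1 false, pX 0 true, pX 1 false, pX 0 true, pX 0 true, pX 1 false, pN 2]

theorem isLeaf_leaf6 : IsLeaf leaf6 := by
  apply isLeaf_of
  · exact ⟨by decide, by decide, by decide, by decide, by decide, by decide, by decide,
      by decide, rfl⟩
  · decide
  · refine ⟨true, fun p i h => ?_⟩
    have h1 : pX i p ∈ leaf6 → (i = 0 ∧ p = true) ∨ (i = 1 ∧ p = false) := by
      intro h
      simp only [leaf6, List.mem_cons, Piece.mk.injEq, Kind.X.injEq, reduceCtorEq, false_and,
        List.not_mem_nil, or_false, false_or] at h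
      tauto
    rcases h1 h with ⟨rfl, rfl⟩ | ⟨rfl, rfl⟩ <;> decide
  · decide +kernel

end Pool.ALT
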