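import Pool.Agent.ALT.Glue.LL
import Pool.Agent.ALT.S0.S0

/-! # ALT, glue: `Leaf` for the jet of a pair of dual graphs -/

set_option autoImplicit false

namespace Pool.ALT

section

variable {V W E : Type} [Fintype V] [Fintype W] [Fintype E] [DecidableEq E]

/-- there are at least two spanning trees -/
theorem glue_two_le_p {g : Gr V E} (hc : nc (g.sp ⊥ Finset.univ) = 1) (hp : g.Pm) :
    2 ≤ g.p ⊥ Finset.univ := by
  classical
  have hV : Nonempty V := ⟨g.a⟩
  obtain ⟨e⟩ : Nonempty E := Fintype.card_pos_iff.1 (by have := hp.two; omega)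
  have hne : ({e} : Finset E) ≠ Finset.univ := by
    intro h2
    have h3 := congrArg Finset.card h2
    rw [Finset.card_singleton, Finset.card_univ] at h3
    have := hp.two
    omega
  have h1 := hp.c1 {e} (Finset.singleton_ne_empty e) hne
  have h2 := Gr.nc_le_add_card g ⊥ ({e} : Finset E)
  rw [nc_bot, Nat.card_eq_fintype_card, Finset.card_singleton] at h2
  have h3 := nc_pos (g.sp ⊥ (Finset.univ \ {e}))
  have hnc1 : nc (g.sp ⊥ (Finset.univ \ {e})) = 1 := by omega
  have hloop : ¬ (⊥ : Setoid V) (g.u e) (g.v e) := by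
    intro h4
    have h5 : g.sp ⊥ ({e} : Finset E) = ⊥ := by
      have h6 : g.sp ⊥ (insert e ∅) = g.sp ⊥ ∅ := by
        apply Gr.sp_insert_of
        rw [g.sp_empty]
        exact h4
      rw [insert_empty_eq, g.sp_empty] at h6
      exact h6
    rw [h5, nc_bot, Nat.card_eq_fintype_card] at h1
    omega
  have hK : g.K ⊥ Finset.univ = 1 := glue_K_univ hc
  obtain ⟨A, hA, a1, a2⟩ := S0_forest g ⊥ (Finset.univ \ {e})
  obtain ⟨B, hB, b1, b2⟩ := S0_forest g (⊥ ⊔ g.pe e) (Finset.univ \ {e})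
  have heA : e ∉ A := fun h => by
    have := hA h
    simp at this
  have heB : e ∉ B := fun h => by
    have := hB h
    simp at this
  have hun : insert e (Finset.univ \ {e}) = (Finset.univ : Finset E) := by
    ext x
    by_cases hx : x = e <;> simp [hx]
  have hB1 : nc (g.sp ⊥ (insert e B)) = 1 := by
    rw [g.sp_insert', b1, ← g.sp_insert', hun, hc]
  have hB2 : nc (⊥ ⊔ g.pe e) + 1 = Fintype.card V := by
    rw [← Nat.card_eq_fintype_card, ← nc_bot (V := V)]
    exact nc_sup_pr hloop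
  have hcB : (insert e B).card + nc (g.sp ⊥ (insert e B)) = nc (⊥ : Setoid V) := by
    rw [Finset.card_insert_of_notMem heB, nc_bot, Nat.card_eq_fintype_card]
    rw [← g.sp_insert'] at b2
    omega
  have hsub : ({A, insert e B} : Finset (Finset E)) ⊆ Finset.univ.powerset.filter fun A =>
      nc (g.sp ⊥ A) = g.K ⊥ Finset.univ ∧ A.card + nc (g.sp ⊥ A) = nc (⊥ : Setoid V) := by
    intro X hX
    rw [Finset.mem_insert, Finset.mem_singleton] at hX
    rw [Finset.mem_filter, hK]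
    rcases hX with rfl | rfl
    · exact ⟨Finset.mem_powerset.2 (Finset.subset_univ _), by rw [a1, hnc1], a2⟩
    · exact ⟨Finset.mem_powerset.2 (Finset.subset_univ _), hB1, hcB⟩
  have hne2 : A ≠ insert e B := fun h => heA (h ▸ Finset.mem_insert_self e B)
  have h7 := Finset.card_le_card hsub
  rw [Finset.card_pair hne2] at h7
  unfold Gr.p
  exact h7

/-- the leaf inequalities, all slopes -/
theorem thm_GLF (hFN : St_FN) (hPQ : St_PQ) (hDS : St_DS) (hDN : St_DN) (hDI : St_DI)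
    (hZ : ALZ.St_ZFN) (hJL : St_JL) (hS0 : St_S0) (hSZ : St_SZ) (hZ3 : St_Z3) (g : Gr V E)
    (h : Gr W E) (hl : Lg g h)
    (hco : Nat.Coprime (g.p ⊥ Finset.univ) (g.q ⊥ Finset.univ)) :
    Pool.Agent.ALT.Leaf (Fintype.card E) (jetOf (g.be ⊥ Finset.univ) (g.al ⊥ Finset.univ)) := by
  classical
  have hl' := hl.symm hDS
  obtain ⟨e1, e2⟩ := hPQ g Finset.univ (glue_K_univ hl.du.con) hl.du.ab
  obtain ⟨f1, f2⟩ := hPQ h Finset.univ (glue_K_univ hl'.du.con) hl'.du.ab
  obtain ⟨d1, d2, _, _⟩ := hDN g h hl.du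
  have hp : h.p ⊥ Finset.univ = g.q ⊥ Finset.univ := by rw [f1, d2, e2]
  have hq : h.q ⊥ Finset.univ = g.p ⊥ Finset.univ := by rw [f2, d1, e1]
  rcases lt_trichotomy (g.p ⊥ Finset.univ) (g.q ⊥ Finset.univ) with hlt | heq | hgt
  · exact ⟨_, _, Or.inl (thm_GLL hFN hPQ hZ hJL hS0 hSZ hZ3 g h hl hlt hco)⟩
  · exfalso
    have h2 := glue_two_le_p hl.du.con hl.pm
    rw [← heq, Nat.coprime_self] at hco
    omega
  · have h3 := thm_GLL hFN hPQ hZ hJL hS0 hSZ hZ3 h g hl' (by rw [hp, hq]; exact hgt)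
      (by rw [hp, hq]; exact hco.symm)
    obtain ⟨i1, i2, i3⟩ := hDI g h hl.du
    rw [i1, i2, i3] at h3
    exact ⟨_, _, Or.inr (Or.inl h3)⟩

end

/-- mirror image -/
theorem Leaf_mir {n : ℕ} {J : Pool.Agent.ARB.Jet} (h : Pool.Agent.ALT.Leaf n J) :
    Pool.Agent.ALT.Leaf n ⟨-J.p, J.q, J.w, J.G, -J.F, J.H⟩ := by
  obtain ⟨p, q, h⟩ := h
  refine ⟨p, q, ?_⟩
  rcases h with h | h | h | h
  · right; right; left
    simpa using h
  · right; right; right
    simpa using h
  · left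
    exact h
  · right; left
    exact h

end Pool.ALT
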