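import Pool.Agent.ALT.Glue.LF
import Pool.Agent.ALT.Mo.St
import Pool.Agent.ALT.Tu.HJ
import Pool.Agent.ALT.Ind.Alt
import Pool.Agent.ALT.L3.Main

/-! # ALT, glue: a leaf word has all invariants which are used in the induction -/

set_option autoImplicit false

namespace Pool.ALT

open LaurentPolynomial Pool.Agent.ARB

/-- a leaf is a leaf in the sense of the induction block -/
theorem thm_Leaf (hLg : St_LF) (hPB : St_PB) (hFN : St_FN) (hPQ : St_PQ) (hDS : St_DS)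
    (hDN : St_DN) (hDI : St_DI) (hZ : ALZ.St_ZFN) (hJL : St_JL) (hS0 : St_S0) (hM0 : St_M0)
    (hSZ : St_SZ) (hZ3 : St_Z3) (w : Word) (hw : IsLeaf w) :
    ∃ L : Pool.Agent.ALT.Lf, L.word = w := by
  classical
  obtain ⟨e, he⟩ := hw.alt
  have hl := hLg w hw
  obtain ⟨g, hg⟩ : ∃ g, g = gE w hw.ok := ⟨_, rfl⟩
  have hpair := hPB w hw e he
  rw [← hg] at hl hpair
  have hM := hM0 g ⊥ Finset.univ
  obtain ⟨J0, hJ0⟩ : ∃ J0, J0 = jetOf (g.be ⊥ Finset.univ) (g.al ⊥ Finset.univ) := ⟨_, rfl⟩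
  have hp0 : J0.p = g.p ⊥ Finset.univ := by
    rw [hJ0]
    show ((mo 0 (g.be ⊥ Finset.univ) : ℤ) : ℚ) = _
    rw [hM.1]
    norm_cast
  have hq0 : J0.q = g.q ⊥ Finset.univ := by
    rw [hJ0]
    show ((mo 0 (g.al ⊥ Finset.univ) : ℤ) : ℚ) = _
    rw [hM.2]
    norm_cast
  have hleaf : Nat.Coprime (g.p ⊥ Finset.univ) (g.q ⊥ Finset.univ) →
      Pool.Agent.ALT.Leaf (nX w) J0 := by
    intro hco
    have h1 := thm_GLF hFN hPQ hDS hDN hDI hZ hJL hS0 hSZ hZ3 g _ hl hco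
    rw [Fintype.card_fin, ← hJ0] at h1
    exact h1
  have hjet := thm_HJ e ((nX w : ℤ) - 2 * Fintype.card (Reg true w) + 2)
    (g.be ⊥ Finset.univ) (g.al ⊥ Finset.univ)
  rw [← hJ0] at hjet
  have h4 : (nX w : ℤ) - 2 * Fintype.card (Reg true w) + 2 + 2 =
      (nX w : ℤ) - 2 * Fintype.card (Reg true w) + 4 := by ring
  rw [h4] at hjet
  cases e with
  | true =>
    refine ⟨⟨w, _, _, ((g.p ⊥ Finset.univ : ℤ), (g.q ⊥ Finset.univ : ℤ)), J0, hw.ok, hpair,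
      hjet, ?_, ?_, ?_, ?_⟩, rfl⟩
    · rw [hp0]
      norm_cast
    · rw [hq0]
      norm_cast
    · intro hco
      have h5 := Pool.Agent.ALT.all_L2 _ _ (hleaf (Nat.isCoprime_iff_coprime.1 hco))
      linarith
    · intro hco R hR h6
      exact Pool.Agent.ALT.all_L3 _ _ (hleaf (Nat.isCoprime_iff_coprime.1 hco)) R hR h6
  | false =>
    refine ⟨⟨w, _, _, (-(g.p ⊥ Finset.univ : ℤ), (g.q ⊥ Finset.univ : ℤ)),
      ⟨-J0.p, J0.q, J0.w, J0.G, -J0.F, J0.H⟩, hw.ok, hpair, hjet, ?_, ?_, ?_, ?_⟩, rfl⟩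
    · show -J0.p = _
      rw [hp0]
      push_cast
      ring
    · show J0.q = _
      rw [hq0]
      norm_cast
    · intro hco
      have hco' : IsCoprime (g.p ⊥ Finset.univ : ℤ) (g.q ⊥ Finset.univ : ℤ) := by
        have h7 : IsCoprime (-(g.p ⊥ Finset.univ : ℤ)) (g.q ⊥ Finset.univ : ℤ) := hco
        exact IsCoprime.neg_left_iff _ _ |>.1 h7
      have h5 := Pool.Agent.ALT.all_L2 _ _
        (Leaf_mir (hleaf (Nat.isCoprime_iff_coprime.1 hco')))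
      linarith
    · intro hco R hR h6
      have hco' : IsCoprime (g.p ⊥ Finset.univ : ℤ) (g.q ⊥ Finset.univ : ℤ) := by
        have h7 : IsCoprime (-(g.p ⊥ Finset.univ : ℤ)) (g.q ⊥ Finset.univ : ℤ) := hco
        exact IsCoprime.neg_left_iff _ _ |>.1 h7
      exact Pool.Agent.ALT.all_L3 _ _
        (Leaf_mir (hleaf (Nat.isCoprime_iff_coprime.1 hco'))) R hR h6

end Pool.ALT
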